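import Pool.Agent.H636R2.RTG.Defs

open MeasureTheory Set Filter Topology

noncomputable section

namespace RtG

theorem rt_en (h0 : S_CC) (h1 : S_GT) (h2 : S_FA) (h3 : S_FF) (h4 : S_GP) (h5 : S_STA)
    (h6 : S_STB) (h7 : S_GL) : S_EN := by
  intro p f g hp hf hg hrel hint hne
  have hopen : ∀ T : ℝ, 0 < T → IsOpen {z : ℂ | Real.exp (-dl p T) < ‖aT f T z‖} := by
    intro T hT
    exact isOpen_lt continuous_const (h2 p f hp hf T hT).1.continuous.norm
  have hlow : ∀ (T : ℝ) (z : ℂ), 0 < T → Real.exp (-dl p T) < ‖aT f T z‖ → z.im < 0 →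
      ST f g T z = Ei f g z / fh f z := by
    intro T z hT hz him
    rw [eq_div_iff (hne z him.le), mul_comm]
    exact (h6 p f g hp hf hg hrel T hT z hz).2 him
  obtain ⟨G, hG1, hG2, hG3⟩ := h7 (Gp g) (fun z => Ei f g z / fh f z)
    (h4 p g 1 hp hg zero_le_one).1 (by
    intro z₀ hz₀
    have hc : 0 < ‖fh f z₀‖ := norm_pos_iff.2 (hne z₀ hz₀)
    have hlim : Tendsto (fun T : ℝ => T ^ ((9:ℝ) / 10)) atTop atTop :=
      tendsto_rpow_atTop (by norm_num)
    obtain ⟨A, hA⟩ := eventually_atTop.1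
      (hlim.eventually (eventually_gt_atTop (-Real.log (‖fh f z₀‖ / 2))))
    obtain ⟨T, hTA, hT1, hTd⟩ := h1 p hp hint A
    have hT0 : 0 < T := by linarith
    have hd : -Real.log (‖fh f z₀‖ / 2) < dl p T := (hA T hTA).trans_le hTd
    have he : Real.exp (-dl p T) < ‖fh f z₀‖ / 2 := by
      rw [← Real.exp_log (show 0 < ‖fh f z₀‖ / 2 by positivity)]
      exact Real.exp_lt_exp.2 (by linarith)
    have hdp := ((h0 p hp).2.2.2.1 T hT0.le).2
    have h8 := (h3 p f hp hf).2.2.1 T z₀ hT0 hz₀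
    have h9 : Real.exp (-p T) ≤ Real.exp (-dl p T) := Real.exp_le_exp.2 (by linarith)
    have h10 : ‖fh f z₀‖ - ‖aT f T z₀‖ ≤ ‖aT f T z₀ - fh f z₀‖ := by
      have := norm_sub_norm_le (fh f z₀) (aT f T z₀)
      rwa [norm_sub_rev] at this
    have hz₀' : z₀ ∈ {z : ℂ | Real.exp (-dl p T) < ‖aT f T z‖} := by
      show Real.exp (-dl p T) < ‖aT f T z₀‖
      linarith
    obtain ⟨r, hr, hball⟩ := Metric.isOpen_iff.1 (hopen T hT0) z₀ hz₀'
    refine ⟨r, hr, ST f g T, ((h5 p f g hp hf hg hrel T hT0).1).mono hball, ?_, ?_⟩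
    · intro z hz him
      exact (h6 p f g hp hf hg hrel T hT0 z (hball hz)).1 him
    · intro z hz him
      exact hlow T z hT0 (hball hz) him)
  refine ⟨G, hG1, hG2, ?_, ?_⟩
  · intro z him
    rw [hG3 z him, mul_div_cancel₀ _ (hne z him.le)]
  · intro T z hT hz
    rcases lt_trichotomy z.im 0 with him | him | him
    · rw [hG3 z him, hlow T z hT hz him]
    · -- continuity
      have hO : {z : ℂ | Real.exp (-dl p T) < ‖aT f T z‖} ∈ 𝓝 z := (hopen T hT).mem_nhds hz
      have hφ : Tendsto (fun ε : ℝ => z + (ε : ℂ) * Complex.I) (𝓝[>] 0) (𝓝 z) := by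
        have h8 : Continuous fun ε : ℝ => z + (ε : ℂ) * Complex.I := by fun_prop
        have h9 := h8.tendsto 0
        simp only [Complex.ofReal_zero, zero_mul, add_zero] at h9
        exact h9.mono_left nhdsWithin_le_nhds
      have hc1 : Tendsto (fun ε : ℝ => G (z + (ε : ℂ) * Complex.I)) (𝓝[>] 0) (𝓝 (G z)) :=
        (hG1.continuous.tendsto z).comp hφ
      have hc2 : Tendsto (fun ε : ℝ => ST f g T (z + (ε : ℂ) * Complex.I)) (𝓝[>] 0)
          (𝓝 (ST f g T z)) := by
        have h8 : ContinuousAt (ST f g T) z :=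
          ((h5 p f g hp hf hg hrel T hT).1.differentiableAt hO).continuousAt
        exact h8.tendsto.comp hφ
      refine tendsto_nhds_unique_of_eventuallyEq hc1 hc2 ?_
      have h9 : ∀ᶠ ε : ℝ in 𝓝[>] 0,
          z + (ε : ℂ) * Complex.I ∈ {z : ℂ | Real.exp (-dl p T) < ‖aT f T z‖} :=
        hφ.eventually hO
      filter_upwards [h9, self_mem_nhdsWithin] with ε hε hε0
      have h10 : 0 < (z + (ε : ℂ) * Complex.I).im := by
        simp [him]
        exact hε0
      rw [hG2 _ h10, (h6 p f g hp hf hg hrel T hT _ hε).1 h10]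
    · rw [hG2 z him, (h6 p f g hp hf hg hrel T hT z hz).1 him]

end RtG

end
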