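import Pool.Agent.H636R2.RTG.FA

/-!
Task FF (helper73): the transform in the lower half plane.
-/

open MeasureTheory Set Filter Topology

noncomputable section

namespace RtG

theorem rt_ff (h : S_CC) : S_FF := by
  intro p f hp hf
  obtain ⟨h1, -⟩ := h p hp
  have hint := fa_int hp hf
  have hexp : ∀ z : ℂ, z.im ≤ 0 → IntegrableOn
      (fun t : ℝ => f t * Complex.exp (-(Complex.I * (t:ℂ) * z))) (Set.Ioi 0) := by
    intro z hz
    apply Integrable.mono hint.norm
    · exact hf.meas.aestronglyMeasurable.mul (fa_meas_exp z).aestronglyMeasurable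
    · rw [ae_restrict_iff' measurableSet_Ioi]
      refine Filter.Eventually.of_forall (fun t ht => ?_)
      rw [norm_mul, fa_norm_exp, norm_norm]
      have h2 : Real.exp (t * z.im) ≤ 1 := by
        rw [Real.exp_le_one_iff]
        exact mul_nonpos_of_nonneg_of_nonpos (le_of_lt ht) hz
      exact mul_le_of_le_one_right (norm_nonneg _) h2
  have hsplit : ∀ (T : ℝ) (z : ℂ), 0 < T → z.im ≤ 0 →
      aT f T z - fh f z = -∫ t in Set.Ioi T, f t * Complex.exp (-(Complex.I * (t:ℂ) * z)) := by
    intro T z hT hz
    unfold aT fh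
    have h2 := hexp z hz
    have h3 : Set.Ioi (0:ℝ) = Set.Ioc 0 T ∪ Set.Ioi T := (Set.Ioc_union_Ioi_eq_Ioi hT.le).symm
    have h4 : ∫ t in Set.Ioi (0:ℝ), f t * Complex.exp (-(Complex.I * (t:ℂ) * z)) =
        (∫ t in Set.Ioc 0 T, f t * Complex.exp (-(Complex.I * (t:ℂ) * z))) +
        ∫ t in Set.Ioi T, f t * Complex.exp (-(Complex.I * (t:ℂ) * z)) := by
      rw [h3]
      apply setIntegral_union
      · exact Set.Ioc_disjoint_Ioi (le_refl T)
      · exact measurableSet_Ioi
      · exact h2.mono_set Set.Ioc_subset_Ioi_self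
      · exact h2.mono_set (Set.Ioi_subset_Ioi hT.le)
    rw [h4]
    ring
  refine ⟨?_, ?_, ?_, ?_⟩
  · intro z0 hz0
    have hz0' : z0.im < 0 := hz0
    apply DifferentiableAt.differentiableWithinAt
    unfold fh
    have hc : 0 < -z0.im / 2 := by linarith
    apply fa_diff (volume.restrict (Set.Ioi 0)) f hint z0 (-z0.im / 2) (1 / (-z0.im / 2)) 1 hc
    · rw [ae_restrict_iff' measurableSet_Ioi]
      refine Filter.Eventually.of_forall (fun t ht z hz => ?_)
      have ht' : 0 < t := ht
      have h1 : |z.im - z0.im| < -z0.im / 2 := by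
        have h2 : ‖z - z0‖ < -z0.im / 2 := by simpa [dist_eq_norm] using hz
        have h3 := Complex.abs_im_le_norm (z - z0)
        rw [Complex.sub_im] at h3
        exact lt_of_le_of_lt h3 h2
      have h4 : z.im ≤ -(-z0.im / 2) := by
        have h6 := (abs_lt.1 h1).2
        linarith
      rw [abs_of_pos ht', le_div_iff₀ hc]
      set c := -z0.im / 2 with hcdef
      have h5 : Real.exp (t * z.im) ≤ Real.exp (-(c * t)) := by
        apply Real.exp_le_exp.2
        calc t * z.im ≤ t * (-c) := mul_le_mul_of_nonneg_left h4 ht'.le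
          _ = -(c * t) := by ring
      have h6 : c * t ≤ Real.exp (c * t) := by
        have := Real.add_one_le_exp (c * t)
        linarith
      calc t * Real.exp (t * z.im) * c ≤ t * Real.exp (-(c * t)) * c := by
            apply mul_le_mul_of_nonneg_right _ hc.le
            exact mul_le_mul_of_nonneg_left h5 ht'.le
        _ = (c * t) * Real.exp (-(c * t)) := by ring
        _ ≤ Real.exp (c * t) * Real.exp (-(c * t)) :=
            mul_le_mul_of_nonneg_right h6 (Real.exp_pos _).le
        _ = 1 := by rw [← Real.exp_add]; simp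
    · rw [ae_restrict_iff' measurableSet_Ioi]
      refine Filter.Eventually.of_forall (fun t ht => ?_)
      rw [Real.exp_le_one_iff]
      exact mul_nonpos_of_nonneg_of_nonpos (le_of_lt ht) hz0'.le
  · intro z hz
    unfold fh
    apply fa_bound hf _ measurableSet_Ioi subset_rfl 1 zero_le_one
    intro t ht
    have ht' : 0 < t := ht
    rw [one_mul]
    apply Real.exp_le_exp.2
    exact (mul_nonpos_of_nonneg_of_nonpos ht'.le hz).trans (hp.nn t ht'.le)
  · intro T z hT hz
    rw [hsplit T z hT hz, norm_neg]
    apply fa_bound hf _ measurableSet_Ioi (Set.Ioi_subset_Ioi hT.le) _ (Real.exp_pos _).le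
    intro t ht
    have ht' : T < t := ht
    rw [← Real.exp_add]
    apply Real.exp_le_exp.2
    have h2 := h1 T t hT.le ht'.le
    have h3 : t * z.im ≤ 0 := mul_nonpos_of_nonneg_of_nonpos (hT.le.trans ht'.le) hz
    linarith
  · intro T z hT hz
    rw [hsplit T z hT (by linarith), norm_neg]
    apply fa_bound hf _ measurableSet_Ioi (Set.Ioi_subset_Ioi hT.le) _ (Real.exp_pos _).le
    intro t ht
    have ht' : T < t := ht
    rw [← Real.exp_add]
    apply Real.exp_le_exp.2
    have h2 := hp.nn t (hT.le.trans ht'.le)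
    have h3 : t * z.im ≤ t * (-1) := mul_le_mul_of_nonneg_left hz (hT.le.trans ht'.le)
    linarith

end RtG

end
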