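import Pool.Agent.H636R2.RTG.Defs

set_option autoImplicit false
open Filter Topology Metric

namespace RtG

theorem gl_aux (Fp Fm : ℂ → ℂ) (hp : DifferentiableOn ℂ Fp {z | 0 < z.im})
    (h : ∀ z0 : ℂ, z0.im ≤ 0 → ∃ (r : ℝ) (S : ℂ → ℂ), 0 < r ∧ DifferentiableOn ℂ S (ball z0 r) ∧
      (∀ z ∈ ball z0 r, 0 < z.im → S z = Fp z) ∧ (∀ z ∈ ball z0 r, z.im < 0 → S z = Fm z)) :
    ∃ G : ℂ → ℂ, Differentiable ℂ G ∧ (∀ z : ℂ, 0 < z.im → G z = Fp z) ∧
      (∀ z : ℂ, z.im < 0 → G z = Fm z) := by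
  classical
  choose! r S hr hd hup hlo using h
  let G : ℂ → ℂ := fun z => if 0 < z.im then Fp z else S z z
  have hG1 : ∀ z : ℂ, 0 < z.im → G z = Fp z := fun z hz => if_pos hz
  have hG2 : ∀ z : ℂ, ¬ 0 < z.im → G z = S z z := fun z hz => if_neg hz
  -- on the ball around z0 (im ≤ 0), G = S z0
  have key : ∀ z0 : ℂ, z0.im ≤ 0 → ∀ w ∈ ball z0 (r z0), G w = S z0 w := by
    intro z0 hz0 w hw
    rcases lt_trichotomy 0 w.im with h1 | h1 | h1
    · rw [hG1 w h1, hup z0 hz0 w hw h1]
    · -- w.im = 0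
      have hw0 : w.im ≤ 0 := by rw [← h1]
      rw [hG2 w (by rw [← h1]; exact lt_irrefl _)]
      -- path w + i ε
      have hpath : Tendsto (fun e : ℝ => w + Complex.I * (e : ℂ)) (𝓝[>] 0) (𝓝 w) := by
        have : Tendsto (fun e : ℝ => w + Complex.I * (e : ℂ)) (𝓝 0) (𝓝 (w + Complex.I * ((0:ℝ) : ℂ))) := by
          apply Continuous.tendsto
          fun_prop
        simp only [Complex.ofReal_zero, mul_zero, add_zero] at this
        exact this.mono_left nhdsWithin_le_nhds
      have c1 : ContinuousAt (S w) w :=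
        ((hd w hw0).differentiableAt (isOpen_ball.mem_nhds (mem_ball_self (hr w hw0)))).continuousAt
      have c2 : ContinuousAt (S z0) w :=
        ((hd z0 hz0).differentiableAt (isOpen_ball.mem_nhds hw)).continuousAt
      have t1 := c1.tendsto.comp hpath
      have t2 := c2.tendsto.comp hpath
      refine tendsto_nhds_unique_of_eventuallyEq t1 t2 ?_
      have e1 : ∀ᶠ e : ℝ in 𝓝[>] 0, w + Complex.I * (e : ℂ) ∈ ball w (r w) :=
        hpath (isOpen_ball.mem_nhds (mem_ball_self (hr w hw0)))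
      have e2 : ∀ᶠ e : ℝ in 𝓝[>] 0, w + Complex.I * (e : ℂ) ∈ ball z0 (r z0) :=
        hpath (isOpen_ball.mem_nhds hw)
      filter_upwards [e1, e2, self_mem_nhdsWithin] with e he1 he2 he3
      have him : 0 < (w + Complex.I * (e : ℂ)).im := by
        simp only [Complex.add_im, Complex.mul_im, Complex.I_re, Complex.I_im, Complex.ofReal_im,
          Complex.ofReal_re, zero_mul, one_mul, zero_add]
        rw [← h1, zero_add]
        exact he3
      show S w (w + Complex.I * (e : ℂ)) = S z0 (w + Complex.I * (e : ℂ))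
      rw [hup w hw0 _ he1 him, hup z0 hz0 _ he2 him]
    · rw [hG2 w (not_lt.mpr h1.le), hlo w h1.le w (mem_ball_self (hr w h1.le)) h1,
        hlo z0 hz0 w hw h1]
  refine ⟨G, ?_, hG1, ?_⟩
  · intro z
    by_cases hz : 0 < z.im
    · have ho : IsOpen {z : ℂ | 0 < z.im} := isOpen_lt continuous_const Complex.continuous_im
      have : G =ᶠ[𝓝 z] Fp := by
        filter_upwards [ho.mem_nhds hz] with w hw
        exact hG1 w hw
      exact ((hp.differentiableAt (ho.mem_nhds hz))).congr_of_eventuallyEq this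
    · have hz' : z.im ≤ 0 := not_lt.mp hz
      have : G =ᶠ[𝓝 z] S z := by
        filter_upwards [isOpen_ball.mem_nhds (mem_ball_self (hr z hz'))] with w hw
        exact key z hz' w hw
      exact ((hd z hz').differentiableAt
        (isOpen_ball.mem_nhds (mem_ball_self (hr z hz')))).congr_of_eventuallyEq this
  · intro z hz
    rw [hG2 z (not_lt.mpr hz.le), hlo z hz.le z (mem_ball_self (hr z hz.le)) hz]

theorem rt_gl : S_GL := by
  intro Fp Fm hp h
  refine gl_aux Fp Fm hp ?_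
  intro z0 hz0
  obtain ⟨r, hr, S, h1, h2, h3⟩ := h z0 hz0
  exact ⟨r, S, hr, h1, h2, h3⟩

end RtG
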