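import Pool.Agent.H636R2.RTG.Defs

/-!
GP: the transform `Gp` in the open upper half plane
-/

open MeasureTheory Set Filter Topology

namespace RtG

theorem gp_exp (s : ℝ) (z : ℂ) :
    ‖Complex.exp (Complex.I * (s:ℂ) * z)‖ = Real.exp (-(s * z.im)) := by
  rw [Complex.norm_exp]
  congr 1
  simp

theorem gp_bd {p : ℝ → ℝ} {h : ℝ → ℂ} {B : ℝ} (hCC : S_CC) (hp : PD p) (hh : BD p h B)
    (hB : 0 ≤ B) {T s : ℝ} (hT : 0 < T) (hs : 0 ≤ s) (z : ℂ) :
    ‖h s * Complex.exp (Complex.I * (s:ℂ) * z)‖ ≤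
      B * Real.exp (p (2 * T)) * Real.exp ((-(z.im - sg p T)) * s) := by
  rw [norm_mul, gp_exp]
  have h1 := (hCC p hp).2.2.2.2.1 T s hT hs
  calc ‖h s‖ * Real.exp (-(s * z.im)) ≤ (B * Real.exp (p s)) * Real.exp (-(s * z.im)) :=
        mul_le_mul_of_nonneg_right (hh.bd s hs) (Real.exp_pos _).le
    _ = B * Real.exp (p s + -(s * z.im)) := by rw [Real.exp_add, mul_assoc]
    _ ≤ B * Real.exp (p (2 * T) + (-(z.im - sg p T)) * s) := by
        apply mul_le_mul_of_nonneg_left _ hB
        apply Real.exp_le_exp.2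
        nlinarith
    _ = B * Real.exp (p (2 * T)) * Real.exp ((-(z.im - sg p T)) * s) := by
        rw [Real.exp_add, mul_assoc]

theorem gp_sg {p : ℝ → ℝ} (hp : PD p) {c : ℝ} (hc : 0 < c) : ∃ T : ℝ, 0 < T ∧ sg p T < c :=
  sg_lt hp hc

theorem gp_meas {p : ℝ → ℝ} {h : ℝ → ℂ} {B : ℝ} (hh : BD p h B) (z : ℂ) :
    AEStronglyMeasurable (fun s : ℝ => h s * Complex.exp (Complex.I * (s:ℂ) * z))
      (volume.restrict (Set.Ioi (0:ℝ))) := by
  refine Measurable.aestronglyMeasurable (hh.meas.mul ?_)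
  exact (by fun_prop : Continuous fun s : ℝ => Complex.exp (Complex.I * (s:ℂ) * z)).measurable

theorem gp_expint (C c : ℝ) (hc : 0 < c) :
    IntegrableOn (fun s : ℝ => C * Real.exp ((-c) * s)) (Set.Ioi 0) :=
  (integrableOn_exp_mul_Ioi (by linarith : -c < 0) 0).const_mul C

theorem gp_int {p : ℝ → ℝ} {h : ℝ → ℂ} {B : ℝ} (hCC : S_CC) (hp : PD p) (hh : BD p h B)
    (hB : 0 ≤ B) {T : ℝ} (hT : 0 < T) {z : ℂ} (hz : sg p T < z.im) :
    IntegrableOn (fun s : ℝ => h s * Complex.exp (Complex.I * (s:ℂ) * z)) (Set.Ioi 0) := by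
  refine Integrable.mono' (gp_expint (B * Real.exp (p (2 * T))) (z.im - sg p T) (by linarith))
    (gp_meas hh z) ?_
  filter_upwards [ae_restrict_mem measurableSet_Ioi] with s hs
  exact gp_bd hCC hp hh hB hT (le_of_lt hs) z

theorem rt_gp (hCC : S_CC) : S_GP := by
  intro p h B hp hh hB
  refine ⟨?_, ?_, ?_⟩
  · intro z0 hz0
    have hz0' : 0 < z0.im := hz0
    obtain ⟨T, hT, hsg⟩ := gp_sg hp (show 0 < z0.im / 4 by linarith)
    apply DifferentiableAt.differentiableWithinAt
    have key := hasDerivAt_integral_of_dominated_loc_of_deriv_le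
      (μ := volume.restrict (Set.Ioi (0:ℝ))) (x₀ := z0) (s := Metric.ball z0 (z0.im / 4))
      (F := fun (z : ℂ) (s : ℝ) => h s * Complex.exp (Complex.I * (s:ℂ) * z))
      (F' := fun (z : ℂ) (s : ℝ) => h s * (Complex.exp (Complex.I * (s:ℂ) * z) *
        (Complex.I * (s:ℂ))))
      (bound := fun s : ℝ => (B * Real.exp (p (2 * T)) * (4 / z0.im)) *
        Real.exp ((-(z0.im / 4)) * s))
      (Metric.ball_mem_nhds z0 (by linarith)) (Eventually.of_forall fun z => gp_meas hh z)
      (gp_int hCC hp hh hB hT (by linarith)) ?_ ?_ (gp_expint _ _ (by linarith)) ?_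
    · exact key.2.differentiableAt
    · refine Measurable.aestronglyMeasurable (hh.meas.mul ?_)
      exact (by fun_prop : Continuous fun s : ℝ => Complex.exp (Complex.I * (s:ℂ) * z0) *
        (Complex.I * (s:ℂ))).measurable
    · filter_upwards [ae_restrict_mem measurableSet_Ioi] with s hs z hz
      have hs0 : 0 < s := hs
      have hzi : z0.im / 2 ≤ z.im - sg p T := by
        rw [Metric.mem_ball, dist_eq_norm] at hz
        have h1 := Complex.abs_im_le_norm (z - z0)
        rw [Complex.sub_im] at h1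
        have h2 := (abs_le.1 h1).1
        linarith
      have h1 := gp_bd hCC hp hh hB hT hs0.le z
      have h2 : ‖Complex.I * (s:ℂ)‖ = s := by
        rw [norm_mul, Complex.norm_I, one_mul, Complex.norm_real, Real.norm_of_nonneg hs0.le]
      rw [← mul_assoc, norm_mul, h2]
      have h3 : (z0.im / 4) * s ≤ Real.exp ((z0.im / 4) * s) :=
        (by linarith : (z0.im / 4) * s ≤ (z0.im / 4) * s + 1).trans (Real.add_one_le_exp _)
      have h4 : s ≤ (4 / z0.im) * Real.exp ((z0.im / 4) * s) := by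
        calc s = (4 / z0.im) * ((z0.im / 4) * s) := by field_simp
          _ ≤ (4 / z0.im) * Real.exp ((z0.im / 4) * s) :=
            mul_le_mul_of_nonneg_left h3 (by positivity)
      have h5 : Real.exp ((-(z.im - sg p T)) * s) ≤ Real.exp ((-(z0.im / 2)) * s) := by
        apply Real.exp_le_exp.2
        nlinarith
      have hBp : 0 ≤ B * Real.exp (p (2 * T)) := mul_nonneg hB (Real.exp_pos _).le
      calc ‖h s * Complex.exp (Complex.I * (s:ℂ) * z)‖ * s
          ≤ (B * Real.exp (p (2 * T)) * Real.exp ((-(z0.im / 2)) * s)) *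
            ((4 / z0.im) * Real.exp ((z0.im / 4) * s)) := by
            apply mul_le_mul (h1.trans (mul_le_mul_of_nonneg_left h5 hBp)) h4 hs0.le
            exact mul_nonneg hBp (Real.exp_pos _).le
        _ = (B * Real.exp (p (2 * T)) * (4 / z0.im)) *
            (Real.exp ((-(z0.im / 2)) * s) * Real.exp ((z0.im / 4) * s)) := by ring
        _ = (B * Real.exp (p (2 * T)) * (4 / z0.im)) * Real.exp ((-(z0.im / 4)) * s) := by
            rw [← Real.exp_add]
            congr 2
            ring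
    · refine Eventually.of_forall fun s z _ => ?_
      have h1 : HasDerivAt (fun w : ℂ => Complex.I * (s:ℂ) * w) (Complex.I * (s:ℂ)) z := by
        simpa using (hasDerivAt_id z).const_mul (Complex.I * (s:ℂ))
      exact (h1.cexp).const_mul (h s)
  · intro z hz
    obtain ⟨T, hT, hsg⟩ := gp_sg hp hz
    exact gp_int hCC hp hh hB hT hsg
  · intro T z hT hz
    have hc : 0 < z.im - sg p T := by linarith
    have h1 : ‖Gp h z‖ ≤ ∫ s in Set.Ioi (0:ℝ),
        B * Real.exp (p (2 * T)) * Real.exp ((-(z.im - sg p T)) * s) := by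
      unfold Gp
      refine norm_integral_le_of_norm_le (gp_expint _ _ hc) ?_
      filter_upwards [ae_restrict_mem measurableSet_Ioi] with s hs
      exact gp_bd hCC hp hh hB hT (le_of_lt hs) z
    refine h1.trans (le_of_eq ?_)
    rw [integral_const_mul, integral_exp_mul_Ioi (by linarith : -(z.im - sg p T) < 0) 0,
      mul_zero, Real.exp_zero]
    field_simp

end RtG
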