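import Pool.Agent.H636R2.RTG.Defs

open MeasureTheory Set Filter Topology

noncomputable section

namespace RtG

theorem l6_norm_exp (s : ℝ) (z : ℂ) :
    ‖Complex.exp (Complex.I * (s:ℂ) * z)‖ = Real.exp (-(z.im * s)) := by
  rw [Complex.norm_exp]
  congr 1
  simp [Complex.mul_re, Complex.mul_im]
  ring

/-- substitution `s = t + τ` -/
theorem l6_subst (h : ℝ → ℂ) (z : ℂ) (t : ℝ) :
    ∫ τ in Set.Ioi (0:ℝ), h (t + τ) * Complex.exp (Complex.I * (τ:ℂ) * z) =
      ∫ s in Set.Ioi t, h s * Complex.exp (Complex.I * ((s:ℂ) - (t:ℂ)) * z) := by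
  have key := (measurePreserving_add_left (volume : Measure ℝ) t).setIntegral_preimage_emb
    (measurableEmbedding_addLeft t)
    (fun s : ℝ => h s * Complex.exp (Complex.I * ((s:ℂ) - (t:ℂ)) * z)) (Set.Ioi t)
  rw [← key]
  have hpre : (fun x : ℝ => t + x) ⁻¹' Set.Ioi t = Set.Ioi 0 := by
    ext x; simp
  rw [hpre]
  refine setIntegral_congr_fun measurableSet_Ioi ?_
  intro τ _
  simp only
  congr 3
  push_cast
  ring

theorem l6_split (h : ℝ → ℂ) (z : ℂ) (t : ℝ) (ht : 0 ≤ t)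
    (hi : IntegrableOn (fun s : ℝ => h s * Complex.exp (Complex.I * (s:ℂ) * z)) (Set.Ioi 0)) :
    ∫ s in Set.Ioi t, h s * Complex.exp (Complex.I * ((s:ℂ) - (t:ℂ)) * z) =
      Complex.exp (-(Complex.I * (t:ℂ) * z)) * Gp h z - inn h z t := by
  have hk : ∀ s : ℝ, h s * Complex.exp (Complex.I * ((s:ℂ) - (t:ℂ)) * z) =
      Complex.exp (-(Complex.I * (t:ℂ) * z)) * (h s * Complex.exp (Complex.I * (s:ℂ) * z)) := by
    intro s
    have : Complex.I * ((s:ℂ) - (t:ℂ)) * z = -(Complex.I * (t:ℂ) * z) + Complex.I * (s:ℂ) * z := by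
      ring
    rw [this, Complex.exp_add]
    ring
  have hki : IntegrableOn (fun s : ℝ => h s * Complex.exp (Complex.I * ((s:ℂ) - (t:ℂ)) * z))
      (Set.Ioi 0) := by
    have : (fun s : ℝ => h s * Complex.exp (Complex.I * ((s:ℂ) - (t:ℂ)) * z)) =
        fun s : ℝ => Complex.exp (-(Complex.I * (t:ℂ) * z)) *
          (h s * Complex.exp (Complex.I * (s:ℂ) * z)) := funext hk
    rw [this]
    exact hi.const_mul _
  have hsplit : ∫ s in Set.Ioi (0:ℝ), h s * Complex.exp (Complex.I * ((s:ℂ) - (t:ℂ)) * z) =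
      (∫ s in Set.Ioc (0:ℝ) t, h s * Complex.exp (Complex.I * ((s:ℂ) - (t:ℂ)) * z)) +
      ∫ s in Set.Ioi t, h s * Complex.exp (Complex.I * ((s:ℂ) - (t:ℂ)) * z) := by
    rw [← setIntegral_union (Ioc_disjoint_Ioi le_rfl) measurableSet_Ioi
      (hki.mono_set Ioc_subset_Ioi_self) (hki.mono_set (Ioi_subset_Ioi ht)),
      Ioc_union_Ioi_eq_Ioi ht]
  have hG : ∫ s in Set.Ioi (0:ℝ), h s * Complex.exp (Complex.I * ((s:ℂ) - (t:ℂ)) * z) =
      Complex.exp (-(Complex.I * (t:ℂ) * z)) * Gp h z := by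
    unfold Gp
    rw [← integral_const_mul]
    exact integral_congr_ae (Filter.Eventually.of_forall hk)
  unfold inn
  rw [← hG, hsplit]
  ring

theorem rt_l6 (h0 : S_CC) (h1 : S_GP) (h2 : S_NX) : S_L6 := by
  intro p f h B T hp hf hh hB hrel hT z hz
  obtain ⟨hmono, hsub, -⟩ := h0 p hp
  obtain ⟨-, hGi, -⟩ := h1 p h B hp hh hB
  obtain ⟨-, -, -, hnx⟩ := h2 p f h B B T hp hf hh hB hrel hB hT
    (fun t ht => hh.bd t (by linarith))
  -- the exponential majorant
  have hE : IntegrableOn (fun s : ℝ => Real.exp (p s) * Real.exp (-(z.im * s))) (Set.Ioi 0) := by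
    have hbd : BD p (fun s => ((Real.exp (p s) : ℝ) : ℂ)) 1 :=
      ⟨by
        have := Real.measurable_exp.comp hp.meas
        exact Complex.measurable_ofReal.comp this, by
        intro t _
        rw [one_mul, Complex.norm_real, Real.norm_of_nonneg (Real.exp_pos _).le]⟩
    obtain ⟨-, hi, -⟩ := h1 p _ 1 hp hbd zero_le_one
    have := (hi z hz).norm
    refine this.congr (Filter.Eventually.of_forall ?_)
    intro s
    simp only
    rw [norm_mul, l6_norm_exp, Complex.norm_real, Real.norm_of_nonneg (Real.exp_pos _).le]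
  have hfi : IntegrableOn (fun t => ‖f t‖ * Real.exp (p t)) (Set.Ioc 0 T) :=
    hf.int.mono_set Ioc_subset_Ioi_self
  -- the kernel
  set F : ℝ × ℝ → ℂ := fun q => f q.2 * (h (q.2 + q.1) * Complex.exp (Complex.I * (q.1:ℂ) * z))
    with hF
  have hFm : Measurable F := by
    have m1 : Measurable fun q : ℝ × ℝ => f q.2 := hf.meas.comp measurable_snd
    have m2 : Measurable fun q : ℝ × ℝ => h (q.2 + q.1) :=
      hh.meas.comp (measurable_snd.add measurable_fst)
    have m3 : Measurable fun q : ℝ × ℝ => Complex.exp (Complex.I * (q.1:ℂ) * z) := by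
      have : Continuous fun q : ℝ × ℝ => Complex.exp (Complex.I * (q.1:ℂ) * z) := by fun_prop
      exact this.measurable
    exact m1.mul (m2.mul m3)
  have hFi : Integrable F
      ((volume.restrict (Set.Ioi (0:ℝ))).prod (volume.restrict (Set.Ioc (0:ℝ) T))) := by
    have hprod := (hE.const_mul B).mul_prod hfi
    refine hprod.mono' hFm.aestronglyMeasurable ?_
    rw [Measure.prod_restrict]
    refine (ae_restrict_mem (measurableSet_Ioi.prod measurableSet_Ioc)).mono ?_
    rintro ⟨τ, t⟩ ⟨hτ, ht⟩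
    have hτ' : 0 < τ := hτ
    have ht' : 0 < t := ht.1
    have hb : ‖h (t + τ)‖ ≤ B * Real.exp (p (t + τ)) := hh.bd _ (by linarith)
    have hs : Real.exp (p (t + τ)) ≤ Real.exp (p t) * Real.exp (p τ) := by
      rw [← Real.exp_add]
      exact Real.exp_le_exp.mpr (hsub t τ ht'.le hτ'.le)
    have hb2 : ‖h (t + τ)‖ ≤ B * (Real.exp (p t) * Real.exp (p τ)) :=
      hb.trans (mul_le_mul_of_nonneg_left hs hB)
    simp only [hF, norm_mul, l6_norm_exp]
    calc ‖f t‖ * (‖h (t + τ)‖ * Real.exp (-(z.im * τ)))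
        ≤ ‖f t‖ * ((B * (Real.exp (p t) * Real.exp (p τ))) * Real.exp (-(z.im * τ))) := by
          gcongr
      _ = B * (Real.exp (p τ) * Real.exp (-(z.im * τ))) * (‖f t‖ * Real.exp (p t)) := by ring
  -- inner integral
  have hin : ∀ t ∈ Set.Ioc (0:ℝ) T, ∫ τ in Set.Ioi (0:ℝ), F (τ, t) =
      f t * (Complex.exp (-(Complex.I * (t:ℂ) * z)) * Gp h z - inn h z t) := by
    intro t ht
    simp only [hF]
    rw [integral_const_mul, l6_subst, l6_split h z t ht.1.le (hGi z hz)]
  have hswap : ∫ τ in Set.Ioi (0:ℝ), ∫ t in Set.Ioc (0:ℝ) T, F (τ, t) =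
      ∫ t in Set.Ioc (0:ℝ) T, ∫ τ in Set.Ioi (0:ℝ), F (τ, t) :=
    integral_integral_swap hFi
  have hGI : IntegrableOn (fun t => ∫ τ in Set.Ioi (0:ℝ), F (τ, t)) (Set.Ioc 0 T) :=
    hFi.integral_prod_right
  -- integrability of `f t exp(-itz)`
  have ha : IntegrableOn (fun t : ℝ => f t * Complex.exp (-(Complex.I * (t:ℂ) * z)))
      (Set.Ioc 0 T) := by
    have hm : Measurable fun t : ℝ => f t * Complex.exp (-(Complex.I * (t:ℂ) * z)) := by
      have : Continuous fun t : ℝ => Complex.exp (-(Complex.I * (t:ℂ) * z)) := by fun_prop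
      exact hf.meas.mul this.measurable
    refine (hfi.mul_const (Real.exp (z.im * T))).mono' hm.aestronglyMeasurable ?_
    refine (ae_restrict_mem measurableSet_Ioc).mono ?_
    intro t ht
    have hn : ‖Complex.exp (-(Complex.I * (t:ℂ) * z))‖ = Real.exp (z.im * t) := by
      rw [Complex.norm_exp]
      congr 1
      simp [Complex.mul_re, Complex.mul_im]
      ring
    rw [norm_mul, hn]
    have e1 : Real.exp (z.im * t) ≤ Real.exp (z.im * T) :=
      Real.exp_le_exp.mpr (mul_le_mul_of_nonneg_left ht.2 hz.le)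
    have e2 : 1 ≤ Real.exp (p t) := Real.one_le_exp (hp.nn t ht.1.le)
    have e3 : ‖f t‖ ≤ ‖f t‖ * Real.exp (p t) := le_mul_of_one_le_right (norm_nonneg _) e2
    exact mul_le_mul e3 e1 (Real.exp_pos _).le (by positivity)
  have hinn : IntegrableOn (fun t => f t * inn h z t) (Set.Ioc 0 T) := by
    have : IntegrableOn (fun t : ℝ => f t * Complex.exp (-(Complex.I * (t:ℂ) * z)) * Gp h z -
        ∫ τ in Set.Ioi (0:ℝ), F (τ, t)) (Set.Ioc 0 T) := (ha.mul_const _).sub hGI
    refine this.congr_fun ?_ measurableSet_Ioc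
    intro t ht
    simp only
    rw [hin t ht]
    ring
  have e1 : Gp (nx f T h) z = - ∫ τ in Set.Ioi (0:ℝ), ∫ t in Set.Ioc (0:ℝ) T, F (τ, t) := by
    unfold Gp
    rw [← integral_neg]
    refine setIntegral_congr_fun measurableSet_Ioi ?_
    intro τ hτ
    simp only
    rw [hnx τ hτ, neg_mul, ← integral_mul_const]
    congr 1
    refine integral_congr_ae (Filter.Eventually.of_forall ?_)
    intro t
    simp only [hF]
    ring
  rw [e1, hswap]
  have e2 : ∫ t in Set.Ioc (0:ℝ) T, ∫ τ in Set.Ioi (0:ℝ), F (τ, t) =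
      ∫ t in Set.Ioc (0:ℝ) T, (f t * Complex.exp (-(Complex.I * (t:ℂ) * z)) * Gp h z -
        f t * inn h z t) := by
    refine setIntegral_congr_fun measurableSet_Ioc ?_
    intro t ht
    simp only
    rw [hin t ht]
    ring
  rw [e2, integral_sub (ha.mul_const _) hinn, integral_mul_const]
  unfold aT Ef
  ring

end RtG

end
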