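import Pool.Agent.H636R2.RTG.Defs

open MeasureTheory Set Filter Topology Complex

noncomputable section

namespace RtG


theorem pf_growth (hPQ : S_PQ) (Γ : ℂ → ℂ) (M A B : ℝ) (hM : 0 ≤ M) (hA : 0 ≤ A) (hB : 0 ≤ B)
    (hΓ : Differentiable ℂ Γ) (hup : ∀ z : ℂ, 0 ≤ z.im → ‖Γ z‖ ≤ M)
    (hq : ∀ u s : ℝ, 0 ≤ s → ‖Γ ⟨u, -s⟩‖ ≤ Real.exp (A + B * (u ^ 2 + (2 + s) ^ 2) / (1 + s))) :
    ∃ C : ℝ, 0 ≤ C ∧ ∀ u s : ℝ, 0 ≤ s → ‖Γ ⟨u, -s⟩‖ ≤ C * Real.exp (C * (|u| + s)) := by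
  obtain ⟨C₁, hC₁, h₁⟩ := hPQ Γ M A B hM hA hB hΓ (fun x _ => hup _ (by simp))
    (fun u s _ hs => hq u s hs)
  set Γ₂ : ℂ → ℂ := fun w => (starRingEnd ℂ) (Γ (-((starRingEnd ℂ) w))) with hΓ₂
  have hd : Differentiable ℂ Γ₂ := by
    have h1 : Differentiable ℂ (fun w => Γ (-w)) := hΓ.comp differentiable_neg
    intro w
    have h2 : DifferentiableAt ℂ ((starRingEnd ℂ) ∘ (fun w => Γ (-w)) ∘ (starRingEnd ℂ)) w :=
      differentiableAt_conj_conj_iff.2 (h1 ((starRingEnd ℂ) w))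
    exact h2
  have hn : ∀ u v : ℝ, ‖Γ₂ ⟨u, v⟩‖ = ‖Γ ⟨-u, v⟩‖ := by
    intro u v
    have h1 : -((starRingEnd ℂ) (⟨u, v⟩ : ℂ)) = (⟨-u, v⟩ : ℂ) := by
      apply Complex.ext <;> simp
    show ‖(starRingEnd ℂ) (Γ (-((starRingEnd ℂ) (⟨u, v⟩ : ℂ))))‖ = _
    rw [h1, Complex.norm_conj]
  obtain ⟨C₂, hC₂, h₂⟩ := hPQ Γ₂ M A B hM hA hB hd
    (fun x _ => by rw [hn]; exact hup _ (by simp))
    (fun u s _ hs => by
      rw [hn]
      have := hq (-u) s hs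
      rwa [neg_sq] at this)
  refine ⟨max C₁ C₂, le_max_of_le_left hC₁, ?_⟩
  intro u s hs
  have hmono : ∀ C : ℝ, 0 ≤ C → C ≤ max C₁ C₂ →
      C * Real.exp (C * (|u| + s)) ≤ max C₁ C₂ * Real.exp (max C₁ C₂ * (|u| + s)) := by
    intro C hC hCm
    refine mul_le_mul hCm (Real.exp_le_exp.2 ?_) (Real.exp_pos _).le (hC.trans hCm)
    exact mul_le_mul_of_nonneg_right hCm (by positivity)
  rcases le_total 0 u with hu | hu
  · refine le_trans ?_ (hmono C₁ hC₁ (le_max_left _ _))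
    have := h₁ u s hu hs
    rwa [abs_of_nonneg hu]
  · refine le_trans ?_ (hmono C₂ hC₂ (le_max_right _ _))
    have := h₂ (-u) s (by linarith) hs
    rw [hn, neg_neg] at this
    rwa [abs_of_nonpos hu]

theorem pf_lower (Γ : ℂ → ℂ) (M C : ℝ) (hM : 0 ≤ M) (hC : 0 ≤ C) (hΓ : Differentiable ℂ Γ)
    (hup : ∀ z : ℂ, 0 ≤ z.im → ‖Γ z‖ ≤ M)
    (hg : ∀ u s : ℝ, 0 ≤ s → ‖Γ ⟨u, -s⟩‖ ≤ C * Real.exp (C * (|u| + s)))
    (hδ : ∀ δ : ℝ, 0 < δ → ∃ C : ℝ, ∀ s : ℝ, 0 ≤ s → ‖Γ ⟨0, -s⟩‖ ≤ C * Real.exp (δ * s))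
    (δ : ℝ) (hδ0 : 0 < δ) (u s : ℝ) (hs : 0 ≤ s) : ‖Γ ⟨u, -s⟩‖ * Real.exp (-(δ * s)) ≤ M := by
  -- in the variable `ζ` of the right half plane, `w = -I ζ`
  set f : ℂ → ℂ := fun ζ => Γ (-(Complex.I * ζ)) * Complex.exp (-((δ : ℂ) * ζ)) with hf
  have hw : ∀ ζ : ℂ, -(Complex.I * ζ) = (⟨ζ.im, -ζ.re⟩ : ℂ) := by
    intro ζ
    apply Complex.ext <;> simp
  have hnf : ∀ ζ : ℂ, ‖f ζ‖ = ‖Γ ⟨ζ.im, -ζ.re⟩‖ * Real.exp (-(δ * ζ.re)) := by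
    intro ζ
    show ‖Γ (-(Complex.I * ζ)) * Complex.exp (-((δ : ℂ) * ζ))‖ = _
    rw [norm_mul, hw, Complex.norm_exp, Complex.neg_re, Complex.re_ofReal_mul]
  have hfd : Differentiable ℂ f := by
    refine Differentiable.mul (hΓ.comp ?_) ?_
    · fun_prop
    · fun_prop
  have hexp : ∃ c < (2 : ℝ), ∃ B, f =O[Bornology.cobounded ℂ ⊓ 𝓟 {z : ℂ | 0 < z.re}]
      fun z => Real.exp (B * ‖z‖ ^ c) := by
    refine ⟨1, by norm_num, 2 * C, ?_⟩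
    refine Asymptotics.IsBigO.of_bound C ?_
    have hmem : {z : ℂ | 0 < z.re} ∈ Bornology.cobounded ℂ ⊓ 𝓟 {z : ℂ | 0 < z.re} :=
      mem_inf_of_right (mem_principal_self _)
    filter_upwards [hmem] with ζ hζ
    have hζ' : 0 < ζ.re := hζ
    rw [hnf, Real.rpow_one, Real.norm_eq_abs, abs_of_pos (Real.exp_pos _)]
    have h1 : Real.exp (-(δ * ζ.re)) ≤ 1 := by
      rw [Real.exp_le_one_iff]
      nlinarith
    have h2 : |ζ.im| + ζ.re ≤ 2 * ‖ζ‖ := by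
      have := Complex.abs_im_le_norm ζ
      have := Complex.re_le_norm ζ
      linarith
    calc ‖Γ ⟨ζ.im, -ζ.re⟩‖ * Real.exp (-(δ * ζ.re))
        ≤ (C * Real.exp (C * (|ζ.im| + ζ.re))) * 1 :=
          mul_le_mul (hg _ _ hζ'.le) h1 (Real.exp_pos _).le (by positivity)
      _ ≤ C * Real.exp (2 * C * ‖ζ‖) := by
          rw [mul_one]
          refine mul_le_mul_of_nonneg_left (Real.exp_le_exp.2 ?_) hC
          nlinarith
  have hre : IsBoundedUnder (· ≤ ·) atTop fun x : ℝ => ‖f x‖ := by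
    obtain ⟨Cδ, hCδ⟩ := hδ δ hδ0
    refine ⟨Cδ, ?_⟩
    rw [eventually_map]
    filter_upwards [eventually_ge_atTop (0:ℝ)] with x hx
    rw [hnf]
    simp only [Complex.ofReal_im, Complex.ofReal_re]
    have h1 := hCδ x hx
    calc ‖Γ ⟨0, -x⟩‖ * Real.exp (-(δ * x)) ≤ (Cδ * Real.exp (δ * x)) * Real.exp (-(δ * x)) :=
          mul_le_mul_of_nonneg_right h1 (Real.exp_pos _).le
      _ = Cδ := by
          rw [mul_assoc, ← Real.exp_add]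
          simp
  have him : ∀ x : ℝ, ‖f (x * Complex.I)‖ ≤ M := by
    intro x
    rw [hnf]
    have h1 : ((x : ℂ) * Complex.I).re = 0 := by simp
    have h2 : ((x : ℂ) * Complex.I).im = x := by simp
    rw [h1, h2, mul_zero, neg_zero, Real.exp_zero, mul_one]
    exact hup _ (by simp)
  have h := PhragmenLindelof.right_half_plane_of_bounded_on_real (f := f) (C := M)
    hfd.diffContOnCl hexp hre him (z := ⟨s, u⟩) hs
  rw [hnf] at h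
  exact h

theorem rt_pf (hPQ : S_PQ) : S_PF := by
  intro Γ M A B hM hA hB hΓ hup hq hδ hlim
  obtain ⟨C, hC, hg⟩ := pf_growth hPQ Γ M A B hM hA hB hΓ hup hq
  have hlow := pf_lower Γ M C hM hC hΓ hup hg hδ
  have hlow2 : ∀ u s : ℝ, 0 ≤ s → ‖Γ ⟨u, -s⟩‖ ≤ M := by
    intro u s hs
    have h5 : Tendsto (fun δ : ℝ => ‖Γ ⟨u, -s⟩‖ * Real.exp (-(δ * s))) (𝓝[>] 0)
        (𝓝 (‖Γ ⟨u, -s⟩‖ * Real.exp (-(0 * s)))) := by
      have hcont : Continuous (fun δ : ℝ => ‖Γ ⟨u, -s⟩‖ * Real.exp (-(δ * s))) := by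
        fun_prop
      exact (hcont.tendsto 0).mono_left nhdsWithin_le_nhds
    have h6 : ‖Γ ⟨u, -s⟩‖ * Real.exp (-(0 * s)) ≤ M := by
      refine le_of_tendsto h5 ?_
      filter_upwards [self_mem_nhdsWithin] with δ hδ'
      exact hlow δ hδ' u s hs
    simpa using h6
  have hbd : ∀ z, ‖Γ z‖ ≤ M := by
    intro z
    rcases le_total 0 z.im with hz | hz
    · exact hup z hz
    · have h1 := hlow2 z.re (-z.im) (by linarith)
      rw [neg_neg] at h1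
      exact h1
  have hb : Bornology.IsBounded (range Γ) := by
    rw [isBounded_iff_forall_norm_le]
    refine ⟨M, ?_⟩
    rintro _ ⟨z, rfl⟩
    exact hbd z
  intro z
  have hconst : ∀ y : ℝ, Γ ⟨0, y⟩ = Γ z := fun y => hΓ.apply_eq_apply_of_bounded hb _ _
  have h1 : Tendsto (fun y : ℝ => Γ ⟨0, y⟩) atTop (𝓝 (Γ z)) := by
    simp only [hconst]
    exact tendsto_const_nhds
  exact tendsto_nhds_unique h1 hlim

end RtG

end
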