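import Pool.Agent.H636R2.RTG.STA

/-! Task STB (helper997) -/

set_option autoImplicit false

open MeasureTheory Set Filter Topology

noncomputable section

namespace RtG

/-- telescoping series -/
theorem stb_tele (E G : ℕ → ℂ) (a : ℂ) (q C C' : ℝ) (hq : 0 < q) (hqa : q < ‖a‖)
    (hrec : ∀ k, G (k + 1) = E k - a * G k) (hG : ∀ k, ‖G k‖ ≤ C * q ^ k)
    (hE : ∀ k, ‖E k‖ ≤ C' * q ^ k) :
    ∑' k : ℕ, (-1) ^ k * E k / a ^ (k + 1) = G 0 := by
  have ha0 : 0 < ‖a‖ := hq.trans hqa
  have ha : a ≠ 0 := norm_pos_iff.mp ha0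
  have hr1 : q / ‖a‖ < 1 := (div_lt_one ha0).mpr hqa
  have hr0 : 0 ≤ q / ‖a‖ := by positivity
  have hpart : ∀ n : ℕ, ∑ k ∈ Finset.range n, (-1) ^ k * E k / a ^ (k + 1)
      = G 0 - (-1) ^ n * G n / a ^ n := by
    intro n
    induction n with
    | zero => simp
    | succ n ih =>
      rw [Finset.sum_range_succ, ih]
      have h1 : E n = G (n + 1) + a * G n := by rw [hrec n]; ring
      rw [h1, pow_succ a n, pow_succ (-1 : ℂ) n]
      have : a ^ n ≠ 0 := pow_ne_zero _ ha
      field_simp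
      ring
  have hlim : Tendsto (fun n : ℕ => (-1 : ℂ) ^ n * G n / a ^ n) atTop (𝓝 0) := by
    refine squeeze_zero_norm (a := fun n : ℕ => C * (q / ‖a‖) ^ n) ?_ ?_
    · intro n
      rw [norm_div, norm_mul, norm_pow, norm_neg, norm_one, one_pow, one_mul, norm_pow, div_pow,
        ← mul_div_assoc]
      exact div_le_div_of_nonneg_right (hG n) (by positivity)
    · have := (tendsto_pow_atTop_nhds_zero_of_lt_one hr0 hr1).const_mul C
      simpa using this
  have hsum : Summable (fun k : ℕ => (-1) ^ k * E k / a ^ (k + 1)) := by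
    refine Summable.of_norm_bounded (g := fun k : ℕ => C' / ‖a‖ * (q / ‖a‖) ^ k)
      ((summable_geometric_of_lt_one hr0 hr1).mul_left _) ?_
    intro k
    rw [norm_div, norm_mul, norm_pow, norm_neg, norm_one, one_pow, one_mul, norm_pow]
    calc ‖E k‖ / ‖a‖ ^ (k + 1) ≤ (C' * q ^ k) / ‖a‖ ^ (k + 1) :=
          div_le_div_of_nonneg_right (hE k) (by positivity)
      _ = _ := by
        rw [div_pow, pow_succ]
        field_simp
  have h2 := hsum.hasSum.tendsto_sum_nat
  have h3 : Tendsto (fun n : ℕ => ∑ k ∈ Finset.range n, (-1) ^ k * E k / a ^ (k + 1)) atTop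
      (𝓝 (G 0)) := by
    have h4 : Tendsto (fun n : ℕ => G 0 - (-1 : ℂ) ^ n * G n / a ^ n) atTop (𝓝 (G 0 - 0)) :=
      tendsto_const_nhds.sub hlim
    rw [sub_zero] at h4
    exact h4.congr fun n => (hpart n).symm
  exact tendsto_nhds_unique h2 h3

/-- bounds of the form `exp (-(k D))` -/
theorem stb_bd (D : ℝ) (hD : 0 ≤ D) (u : ℕ → ℝ) (K : ℝ) (hK : 0 ≤ K) (h0 : u 0 ≤ 1 * K)
    (h1 : ∀ k : ℕ, u (k + 1) ≤ Real.exp (-(k * D)) * K) (k : ℕ) :
    u k ≤ (Real.exp D * K) * Real.exp (-D) ^ k := by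
  cases k with
  | zero =>
    rw [pow_zero, mul_one]
    exact h0.trans (mul_le_mul_of_nonneg_right (Real.one_le_exp hD) hK)
  | succ k =>
    have e5 : Real.exp D * Real.exp (-D) ^ (k + 1) = Real.exp (-(k * D)) := by
      rw [← Real.exp_nat_mul, ← Real.exp_add]
      congr 1
      push_cast
      ring
    refine (h1 k).trans (le_of_eq ?_)
    rw [← e5]; ring

theorem stb_sg (p : ℝ → ℝ) (hp : PD p) (y : ℝ) (hy : 0 < y) : ∃ T : ℝ, 0 < T ∧ sg p T < y :=
  sg_lt hp hy

theorem rt_stb (h0 : S_CC) (h1 : S_GP) (h2 : S_EF) (h3 : S_EI) (h4 : S_GK) (h5 : S_L6)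
    (h6 : S_L7) : S_STB := by
  intro p f g hp hf hg hr T hT z hz
  have hD : 0 ≤ dl p T := ((h0 p hp).2.2.2.1 T hT.le).1
  have hGK := h4 p f g hp hf hg hr T hT
  have hE := sta_Ef h0 h2 h4 p f g hp hf hg hr T hT
  have hEz : ∀ k, ‖Ef f (gk f g T k) T z‖ ≤
        T * Real.exp (max z.im 0 * T) * Real.exp (dl p T) * Real.exp (-dl p T) ^ k :=
    fun k => (hE k).2 (max z.im 0) z (le_max_right _ _) (le_max_left _ _)
  have hsucc : ∀ k, gk f g T (k + 1) = nx f T (gk f g T k) := fun k => by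
    unfold gk; rw [Function.iterate_succ_apply']
  constructor
  · intro him
    obtain ⟨T', hT', hsg⟩ := stb_sg p hp z.im him
    have hK : 0 ≤ Real.exp (p (2 * T')) / (z.im - sg p T') :=
      div_nonneg (Real.exp_pos _).le (by linarith)
    have hGb : ∀ k, ‖Gp (gk f g T k) z‖ ≤
        (Real.exp (dl p T) * (Real.exp (p (2 * T')) / (z.im - sg p T'))) *
          Real.exp (-dl p T) ^ k := by
      refine stb_bd (dl p T) hD (fun k => ‖Gp (gk f g T k) z‖) _ hK ?_ ?_
      · have := (h1 p _ 1 hp (hGK 0).1 zero_le_one).2.2 T' z hT' hsg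
        rw [mul_div_assoc] at this
        exact this
      · intro k
        have := (h1 p _ _ hp (hGK k).2.2 (Real.exp_pos _).le).2.2 T' z hT' hsg
        rw [mul_div_assoc] at this
        exact this
    refine stb_tele (fun k => Ef f (gk f g T k) T z) (fun k => Gp (gk f g T k) z) (aT f T z)
      (Real.exp (-dl p T)) _ _ (Real.exp_pos _) hz ?_ hGb hEz
    intro k
    show Gp (gk f g T (k + 1)) z = _
    rw [hsucc]
    exact h5 p f _ 1 T hp hf (hGK k).1 zero_le_one (hGK k).2.1 hT z him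
  · intro him
    have hK : 0 ≤ 1 / (-z.im) := div_nonneg zero_le_one (by linarith)
    have hGb : ∀ k, ‖Ei f (gk f g T k) z‖ ≤
        (Real.exp (dl p T) * (1 / (-z.im))) * Real.exp (-dl p T) ^ k := by
      refine stb_bd (dl p T) hD (fun k => ‖Ei f (gk f g T k) z‖) _ hK ?_ ?_
      · have := h3 p f _ 1 hp hf (hGK 0).1 zero_le_one z him
        rw [one_mul]
        exact this
      · intro k
        have := h3 p f _ _ hp hf (hGK k).2.2 (Real.exp_pos _).le z him
        rw [mul_one_div]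
        exact this
    have key := stb_tele (fun k => fh f z * Ef f (gk f g T k) T z)
      (fun k => Ei f (gk f g T k) z) (aT f T z)
      (Real.exp (-dl p T)) _ (‖fh f z‖ * (T * Real.exp (max z.im 0 * T) * Real.exp (dl p T)))
      (Real.exp_pos _) hz ?_ hGb ?_
    · have h7 : fh f z * ST f g T z
          = ∑' k : ℕ, (-1) ^ k * (fh f z * Ef f (gk f g T k) T z) / (aT f T z) ^ (k + 1) := by
        unfold ST
        rw [← tsum_mul_left]
        congr 1
        funext k
        ring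
      rw [h7]
      exact key
    · intro k
      show Ei f (gk f g T (k + 1)) z = _
      rw [hsucc]
      exact h6 p f _ 1 T hp hf (hGK k).1 zero_le_one (hGK k).2.1 hT z him
    · intro k
      rw [norm_mul, mul_assoc]
      exact mul_le_mul_of_nonneg_left (hEz k) (norm_nonneg _)

end RtG

end
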