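import Pool.Agent.H636R2.RTG.CC
import Pool.Agent.H636R2.RTG.FA
import Pool.Agent.H636R2.RTG.FF
import Pool.Agent.H636R2.RTG.GP
import Pool.Agent.H636R2.RTG.EF
import Pool.Agent.H636R2.RTG.EI
import Pool.Agent.H636R2.RTG.NX
import Pool.Agent.H636R2.RTG.L6
import Pool.Agent.H636R2.RTG.L7
import Pool.Agent.H636R2.RTG.GK
import Pool.Agent.H636R2.RTG.STA
import Pool.Agent.H636R2.RTG.STB
import Pool.Agent.H636R2.RTG.GL
import Pool.Agent.H636R2.RTG.HD
import Pool.Agent.H636R2.RTG.HK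
import Pool.Agent.H636R2.RTG.BL
import Pool.Agent.H636R2.RTG.VL
import Pool.Agent.H636R2.RTG.PS
import Pool.Agent.H636R2.RTG.PQ
import Pool.Agent.H636R2.RTG.PF
import Pool.Agent.H636R2.RTG.IN
import Pool.Agent.H636R2.RTG.EN
import Pool.Agent.H636R2.RTG.VB
import Pool.Agent.H636R2.RTG.MN

namespace RtG

theorem rt_allmn : S_MN := by
  have cc := rt_cc
  have gt := rt_gt
  have fa := rt_fa cc
  have ff := rt_ff cc
  have gp := rt_gp cc
  have ef := rt_ef cc
  have ei := rt_ei cc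
  have nx := rt_nx cc
  have l6 := rt_l6 cc gp nx
  have l7 := rt_l7 cc nx
  have gk := rt_gk cc nx
  have sta := rt_sta cc fa ef gk
  have stb := rt_stb cc gp ef ei gk l6 l7
  have gl := rt_gl
  have hd := rt_hd
  have hk := rt_hk hd
  have bl := rt_bl
  have vl := rt_vl hd bl
  have ps := rt_ps
  have pq := rt_pq
  have pf := rt_pf pq
  have inj := rt_in gp
  have en := rt_en cc gt fa ff gp sta stb gl
  have vb := rt_vb cc gt fa ff gp sta hk vl
  exact rt_mn en vb ps hk ff gp ei pf inj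

end RtG
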