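import Pool.Agent.H636R2.RTG.Defs

open MeasureTheory Set Filter Topology

noncomputable section

namespace RtG

theorem cc_gap {p : ℝ → ℝ} (hp : PD p) {T s t : ℝ} (hT : 0 ≤ T) (hs : T ≤ s) (ht : T ≤ t) :
    p (s + t) ≤ p s + p t - dl p T := by
  have h : dl p T ≤ p s + p t - p (s + t) := by
    refine csInf_le ⟨0, ?_⟩ ⟨s, t, hs, ht, rfl⟩
    rintro _ ⟨u, v, hu, hv, rfl⟩
    have := hp.add u v (hT.trans hu) (hT.trans hv)
    linarith
  linarith

theorem cc_le {p : ℝ → ℝ} (hp : PD p) {T : ℝ} (hT : 0 ≤ T) : dl p T ≤ p T := by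
  have h1 := cc_gap hp hT le_rfl le_rfl
  have h2 := hp.mono T (T + T) hT (by linarith)
  linarith

theorem rt_cc : S_CC := by
  intro p hp
  refine ⟨hp.mono, hp.add, fun T s t hT hs ht => cc_gap hp hT hs ht,
    fun T hT => ⟨dl_nn hp hT, cc_le hp hT⟩, ?_, hp.star⟩
  intro T t hT ht
  have hd : 0 ≤ p T - dl p T := by linarith [cc_le hp hT.le]
  have hsg : 0 ≤ sg p T := div_nonneg hd hT.le
  rcases le_total t (2 * T) with h | h
  · have h1 := hp.mono t (2 * T) ht h
    have h2 := mul_nonneg hsg ht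
    linarith
  have hn : ∀ n : ℕ, ∀ u, T ≤ u → p (u + n * T) ≤ p u + n * (p T - dl p T) := by
    intro n
    induction n with
    | zero => intro u _; simp
    | succ n ih =>
      intro u hu
      have h1 := ih u hu
      have h3 : 0 ≤ (n:ℝ) * T := by positivity
      have h2 := cc_gap hp hT.le (show T ≤ u + n * T by linarith) (le_refl T)
      push_cast
      have e : u + ((n:ℝ) + 1) * T = (u + n * T) + T := by ring
      rw [e]
      linarith
  set n := ⌊(t - T) / T⌋₊ with hnn
  have h0 : 0 ≤ (t - T) / T := div_nonneg (by linarith) hT.le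
  have h1 : (t - T) / T < (n:ℝ) + 1 := Nat.lt_floor_add_one _
  have h2 : (n:ℝ) ≤ (t - T) / T := Nat.floor_le h0
  rw [div_lt_iff₀ hT] at h1
  rw [le_div_iff₀ hT] at h2
  have h3 := hn n (t - n * T) (by linarith)
  rw [sub_add_cancel] at h3
  have h4 := hp.mono (t - n * T) (2 * T) (by linarith) (by linarith)
  have h5 : (n:ℝ) * (p T - dl p T) ≤ sg p T * t := by
    unfold sg
    rw [div_mul_eq_mul_div, le_div_iff₀ hT]
    have h6 : (n:ℝ) * T ≤ t := by linarith
    calc (n:ℝ) * (p T - dl p T) * T = (p T - dl p T) * (n * T) := by ring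
      _ ≤ (p T - dl p T) * t := mul_le_mul_of_nonneg_left h6 hd
  linarith

theorem rt_gt : S_GT := fun _ _ h A => h A

end RtG

end
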