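import Pool.Agent.H636R2.RTG.WR

open MeasureTheory Set Filter Topology

noncomputable section

namespace RtG

lemma fin_pd (q : ℝ → ℝ) (L : ℝ) (hL : 0 ≤ L) (hq1 : MonotoneOn q (Set.Ici 0))
    (hq2 : AntitoneOn (fun t => q t / t) (Set.Ioi 0)) (hq0 : ∀ t, 0 ≤ t → 0 ≤ q t + L)
    (hlim : Tendsto (fun t => q t / t) atTop (𝓝 0)) :
    PD (fun t => if 0 ≤ t then q t + L else 0) := by
  have hpt : ∀ t : ℝ, 0 ≤ t → (if 0 ≤ t then q t + L else 0) = q t + L := fun t ht => if_pos ht
  have hst : ∀ s t : ℝ, 0 < s → s ≤ t → (q t + L) / t ≤ (q s + L) / s := by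
    intro s t hs hst
    have h1 : q t / t ≤ q s / s := hq2 hs (lt_of_lt_of_le hs hst) hst
    have h2 : L / t ≤ L / s := div_le_div_of_nonneg_left hL hs hst
    rw [add_div, add_div]; linarith
  refine ⟨?_, ?_, ?_, ?_, ?_, ?_⟩
  · have hm : Monotone (fun t : ℝ => q (max t 0)) := by
      intro a b hab
      exact hq1 (Set.mem_Ici.2 (le_max_right a 0)) (Set.mem_Ici.2 (le_max_right b 0))
        (max_le_max_right 0 hab)
    have h2 : Measurable (fun t : ℝ => if 0 ≤ t then q (max t 0) + L else 0) :=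
      Measurable.ite measurableSet_Ici (hm.measurable.add_const L) measurable_const
    have h3 : (fun t : ℝ => if 0 ≤ t then q (max t 0) + L else 0) =
        fun t => if 0 ≤ t then q t + L else 0 := by
      funext t
      split_ifs with h
      · rw [max_eq_left h]
      · rfl
    rw [← h3]; exact h2
  · intro s t hs hst'
    simp only [hpt s hs, hpt t (hs.trans hst')]
    have := hq1 hs (hs.trans hst' : (0:ℝ) ≤ t) hst'
    linarith
  · intro s t hs ht
    simp only [hpt s hs, hpt t ht, hpt (s + t) (add_nonneg hs ht)]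
    rcases hs.eq_or_lt with h | h
    · rw [← h, zero_add]
      linarith [hq0 0 le_rfl]
    rcases ht.eq_or_lt with h' | h'
    · rw [← h', add_zero]
      linarith [hq0 0 le_rfl]
    have hst' : 0 < s + t := by linarith
    have h1 := hst s (s + t) h (by linarith)
    have h2 := hst t (s + t) h' (by linarith)
    rw [le_div_iff₀ h] at h1
    rw [le_div_iff₀ h'] at h2
    have h3 : q (s + t) + L = (q (s + t) + L) / (s + t) * s + (q (s + t) + L) / (s + t) * t := by
      field_simp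
    linarith
  · intro T t hT ht htT
    simp only [hpt T hT.le, hpt t ht]
    rcases ht.eq_or_lt with h | h
    · rw [← h, zero_mul]; exact hq0 0 le_rfl
    have h1 := hst t T h htT
    rw [le_div_iff₀ h] at h1
    linarith
  · intro t ht
    simp only [hpt t ht]
    exact hq0 t ht
  · have h1 : Tendsto (fun t : ℝ => q t / t + L / t) atTop (𝓝 (0 + 0)) :=
      hlim.add (tendsto_const_nhds.div_atTop tendsto_id)
    rw [add_zero] at h1
    refine h1.congr' ?_
    filter_upwards [eventually_ge_atTop 0] with t ht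
    rw [hpt t ht, add_div]

/-- weights comparable to `exp q`, `q` with gaps -/
theorem fin_G (φ : ℝ → ℝ) (hφ1 : ∀ t, 1 ≤ φ t)
    (hφl : Tendsto (fun t => Real.log (φ t) / t) atTop (𝓝 0)) (q : ℝ → ℝ) (c C : ℝ)
    (hc : 0 < c) (hq1 : MonotoneOn q (Set.Ici 0)) (hq2 : AntitoneOn (fun t => q t / t) (Set.Ioi 0))
    (hgap : ∀ A : ℝ, ∃ T, A ≤ T ∧ ∀ s t, T ≤ s → T ≤ t → T ^ ((9:ℝ) / 10) ≤ q s + q t - q (s + t))
    (hle : ∀ t, 0 ≤ t → c * Real.exp (q t) ≤ φ t ∧ φ t ≤ C * Real.exp (q t))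
    (f : ℝ → ℂ) (hfm : AEStronglyMeasurable f volume)
    (hfi : IntegrableOn (fun t => ‖f t‖ * φ t) (Set.Ioi 0))
    (hne : ∀ z : ℂ, z.im ≤ 0 → fh f z ≠ 0)
    (hlim : Filter.limsup (fun y : ℝ => ((Real.log ‖fh f ⟨0, y⟩‖ / |y| : ℝ) : EReal)) atBot = 0)
    (g : ℝ → ℂ) (hgm : AEStronglyMeasurable g (volume.restrict (Set.Ioi 0)))
    (hKex : ∃ K : ℝ, ∀ᵐ t ∂(volume.restrict (Set.Ioi (0:ℝ))), ‖g t‖ ≤ K * φ t)
    (hrel : ∀ τ : ℝ, 0 < τ → ∫ t in Set.Ioi (0:ℝ), f t * g (t + τ) = 0) :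
    ∀ᵐ t ∂(volume.restrict (Set.Ioi (0:ℝ))), g t = 0 := by
  obtain ⟨K, hK⟩ := hKex
  have hC0 : 0 < C := by
    by_contra h
    push Not at h
    have h1 := (hle 0 le_rfl).2
    have h2 := hφ1 0
    nlinarith [Real.exp_pos (q 0)]
  set L := max (Real.log C) 0 with hL
  have hL0 : 0 ≤ L := le_max_right _ _
  have hCL : C ≤ Real.exp L := by
    calc C = Real.exp (Real.log C) := (Real.exp_log hC0).symm
      _ ≤ _ := Real.exp_le_exp.2 (le_max_left _ _)
  have hφL : ∀ t, 0 ≤ t → φ t ≤ Real.exp (q t + L) := fun t ht => by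
    rw [Real.exp_add, mul_comm]
    exact (hle t ht).2.trans (mul_le_mul_of_nonneg_right hCL (Real.exp_pos _).le)
  have hqn : ∀ t, 0 ≤ t → 0 ≤ q t + L := fun t ht =>
    Real.one_le_exp_iff.1 ((hφ1 t).trans (hφL t ht)) |> fun h => h
  have hlow : ∀ t, 0 ≤ t → q t ≤ Real.log (φ t) - Real.log c := fun t ht => by
    have h1 := Real.log_le_log (by positivity) (hle t ht).1
    rw [Real.log_mul hc.ne' (Real.exp_pos _).ne', Real.log_exp] at h1
    linarith
  have hupp : ∀ t, 0 ≤ t → Real.log (φ t) ≤ q t + Real.log C := fun t ht => by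
    have h1 := Real.log_le_log (by linarith [hφ1 t]) (hle t ht).2
    rw [Real.log_mul hC0.ne' (Real.exp_pos _).ne', Real.log_exp] at h1
    linarith
  have hqlim : Tendsto (fun t => q t / t) atTop (𝓝 0) := by
    have h1 : Tendsto (fun t : ℝ => Real.log (φ t) / t - Real.log c / t) atTop (𝓝 (0 - 0)) :=
      hφl.sub (tendsto_const_nhds.div_atTop tendsto_id)
    have h2 : Tendsto (fun t : ℝ => Real.log (φ t) / t - Real.log C / t) atTop (𝓝 (0 - 0)) :=
      hφl.sub (tendsto_const_nhds.div_atTop tendsto_id)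
    rw [sub_zero] at h1 h2
    refine tendsto_of_tendsto_of_tendsto_of_le_of_le' h2 h1 ?_ ?_
    · filter_upwards [eventually_gt_atTop 0] with t ht
      rw [← sub_div]
      exact div_le_div_of_nonneg_right (by linarith [hupp t ht.le]) ht.le
    · filter_upwards [eventually_gt_atTop 0] with t ht
      rw [← sub_div]
      exact div_le_div_of_nonneg_right (hlow t ht.le) ht.le
  have hPD := fin_pd q L hL0 hq1 hq2 hqn hqlim
  set p : ℝ → ℝ := fun t => if 0 ≤ t then q t + L else 0 with hp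
  have hpt : ∀ t, 0 ≤ t → p t = q t + L := fun t ht => if_pos ht
  have hG : GTP p := by
    intro A
    obtain ⟨T, hT, hg⟩ := hgap (max A 1)
    have hT1 : 1 ≤ T := (le_max_right _ _).trans hT
    refine ⟨T, (le_max_left _ _).trans hT, hT1, ?_⟩
    refine le_csInf ⟨_, T, T, le_rfl, le_rfl, rfl⟩ ?_
    rintro _ ⟨s, t, hs, ht, rfl⟩
    have h1 := hg s t hs ht
    rw [hpt s (by linarith), hpt t (by linarith), hpt (s + t) (by linarith)]
    linarith
  refine rt_corg rt_allmn p hPD hG f hfm.restrict ?_ hne hlim g hgm ⟨max K 0, ?_⟩ hrel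
  · refine Integrable.mono' (hfi.const_mul (Real.exp L * c⁻¹)) ?_ ?_
    · exact hfm.restrict.norm.mul (Real.measurable_exp.comp hPD.meas).aestronglyMeasurable
    · filter_upwards [ae_restrict_mem measurableSet_Ioi] with t ht
      have ht0 : (0:ℝ) ≤ t := le_of_lt ht
      rw [Real.norm_of_nonneg (by positivity)]
      have h1 := (hle t ht0).1
      have h2 : Real.exp (q t) ≤ c⁻¹ * φ t := by
        rw [← div_eq_inv_mul, le_div_iff₀ hc]; linarith
      have h3 : Real.exp (p t) ≤ Real.exp L * c⁻¹ * φ t := by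
        rw [hpt t ht0, Real.exp_add, mul_comm, mul_assoc]
        exact mul_le_mul_of_nonneg_left h2 (Real.exp_pos _).le
      calc ‖f t‖ * Real.exp (p t) ≤ ‖f t‖ * (Real.exp L * c⁻¹ * φ t) :=
            mul_le_mul_of_nonneg_left h3 (norm_nonneg _)
        _ = Real.exp L * c⁻¹ * (‖f t‖ * φ t) := by ring
  · filter_upwards [hK, ae_restrict_mem measurableSet_Ioi] with t ht ht0
    have ht1 : (0:ℝ) ≤ t := le_of_lt ht0
    have h2 : 0 ≤ φ t := by linarith [hφ1 t]
    calc ‖g t‖ ≤ K * φ t := ht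
      _ ≤ max K 0 * φ t := mul_le_mul_of_nonneg_right (le_max_left _ _) h2
      _ ≤ max K 0 * Real.exp (p t) := by
        rw [hpt t ht1]
        exact mul_le_mul_of_nonneg_left (hφL t ht1) (le_max_right _ _)

end RtG

end
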