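import Pool.Agent.H636R2.RTG.All

/-!
Removal of the normalisations, general weights `exp p`.
-/

open MeasureTheory Set Filter Topology

noncomputable section

namespace RtG

theorem rt_corg (hMN : S_MN) (p : ℝ → ℝ) (hPD : PD p) (hdiv : GTP p)
    (f : ℝ → ℂ) (hfm : AEStronglyMeasurable f (volume.restrict (Set.Ioi 0)))
    (hfi : IntegrableOn (fun t => ‖f t‖ * Real.exp (p t)) (Set.Ioi 0))
    (hne : ∀ z : ℂ, z.im ≤ 0 → fh f z ≠ 0)
    (hlim : Filter.limsup (fun y : ℝ => ((Real.log ‖fh f ⟨0, y⟩‖ / |y| : ℝ) : EReal)) atBot = 0)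
    (g : ℝ → ℂ) (hgm : AEStronglyMeasurable g (volume.restrict (Set.Ioi 0)))
    (hKex : ∃ K : ℝ, ∀ᵐ t ∂(volume.restrict (Set.Ioi (0:ℝ))), ‖g t‖ ≤ K * Real.exp (p t))
    (hrel : ∀ τ : ℝ, 0 < τ → ∫ t in Set.Ioi (0:ℝ), f t * g (t + τ) = 0) :
    ∀ᵐ t ∂(volume.restrict (Set.Ioi (0:ℝ))), g t = 0 := by
  classical
  obtain ⟨K, hK⟩ := hKex
  -- normalised f
  set f1 : ℝ → ℂ := hfm.mk f with hf1
  have hf1m : Measurable f1 := hfm.stronglyMeasurable_mk.measurable
  have hf1e : ∀ᵐ t ∂(volume.restrict (Set.Ioi (0:ℝ))), f t = f1 t := hfm.ae_eq_mk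
  set N : ℝ := ∫ t in Set.Ioi (0:ℝ), ‖f t‖ * Real.exp (p t) with hN
  have hN0 : 0 ≤ N := integral_nonneg fun t => by positivity
  have hfp : IntegrableOn (fun t => ‖f t‖ * Real.exp (p t)) (Set.Ioi 0) := hfi
  set f2 : ℝ → ℂ := fun t => f1 t / ((N + 1 : ℝ) : ℂ) with hf2
  have hf2e : ∀ᵐ t ∂(volume.restrict (Set.Ioi (0:ℝ))), f2 t = f t / ((N + 1 : ℝ) : ℂ) := by
    filter_upwards [hf1e] with t ht
    rw [hf2]; simp only [ht]
  have hN1 : 0 < N + 1 := by linarith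
  have hf2n : ∀ᵐ t ∂(volume.restrict (Set.Ioi (0:ℝ))),
      ‖f2 t‖ * Real.exp (p t) = (N+1)⁻¹ * (‖f t‖ * Real.exp (p t)) := by
    filter_upwards [hf2e] with t ht
    rw [ht, norm_div, Complex.norm_real, Real.norm_of_nonneg hN1.le]
    ring
  have hFD : FD p f2 := by
    refine ⟨hf1m.div_const _, ?_, ?_⟩
    · exact (hfp.const_mul (N+1)⁻¹).congr (hf2n.mono fun t ht => ht.symm)
    · rw [integral_congr_ae hf2n, integral_const_mul, ← hN, inv_mul_le_iff₀ hN1]
      linarith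
  have hfh : ∀ z, fh f2 z = fh f z / ((N + 1 : ℝ) : ℂ) := by
    intro z
    unfold fh
    rw [← integral_div]
    refine integral_congr_ae ?_
    filter_upwards [hf2e] with t ht
    rw [ht]; ring
  have hne2 : ∀ z : ℂ, z.im ≤ 0 → fh f2 z ≠ 0 := by
    intro z hz
    rw [hfh]
    exact div_ne_zero (hne z hz) (by exact_mod_cast hN1.ne')
  have hlim2 : ∀ δ : ℝ, 0 < δ → ∃ᶠ y : ℝ in atTop, -δ * y < Real.log ‖fh f2 ⟨0, -y⟩‖ := by
    intro δ hδ
    have h1 : (((-(δ/2) : ℝ)) : EReal) < Filter.limsup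
        (fun y : ℝ => ((Real.log ‖fh f ⟨0, y⟩‖ / |y| : ℝ) : EReal)) atBot := by
      rw [hlim]
      exact_mod_cast (by linarith : -(δ/2) < 0)
    have h2 := Filter.frequently_lt_of_lt_limsup (by isBoundedDefault) h1
    have h3 : ∃ᶠ y : ℝ in atTop,
        (((-(δ/2) : ℝ)) : EReal) < ((Real.log ‖fh f ⟨0, -y⟩‖ / |(-y)| : ℝ) : EReal) := by
      have := (tendsto_neg_atBot_atTop (G := ℝ)).frequently (p := fun y : ℝ =>
        (((-(δ/2) : ℝ)) : EReal) < ((Real.log ‖fh f ⟨0, -y⟩‖ / |(-y)| : ℝ) : EReal))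
        (by simpa using h2)
      exact this
    have h4 : ∀ᶠ y : ℝ in atTop, 0 < y ∧ Real.log (N+1) ≤ δ/2 * y := by
      filter_upwards [eventually_gt_atTop 0, eventually_ge_atTop (Real.log (N+1) / (δ/2))] with y h5 h6
      refine ⟨h5, ?_⟩
      rw [div_le_iff₀ (by linarith)] at h6
      linarith
    refine (h3.and_eventually h4).mono ?_
    rintro y ⟨h5, h6, h7⟩
    have h8 : -(δ/2) < Real.log ‖fh f ⟨0, -y⟩‖ / |(-y)| := by exact_mod_cast h5
    rw [abs_neg, abs_of_pos h6, lt_div_iff₀ h6] at h8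
    have hpos : 0 < ‖fh f ⟨0, -y⟩‖ := norm_pos_iff.2 (hne _ (by simp; linarith))
    rw [hfh, norm_div, Complex.norm_real, Real.norm_of_nonneg hN1.le,
      Real.log_div hpos.ne' hN1.ne']
    linarith
  -- normalised g
  set K' : ℝ := max K 1 with hK'
  have hK'1 : 1 ≤ K' := le_max_right _ _
  set g1 : ℝ → ℂ := hgm.mk g with hg1
  have hg1m : Measurable g1 := hgm.stronglyMeasurable_mk.measurable
  have hg1e : ∀ᵐ t ∂(volume.restrict (Set.Ioi (0:ℝ))), g t = g1 t := hgm.ae_eq_mk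
  have hpm : Measurable (fun t => Real.exp (p t)) := Real.measurable_exp.comp hPD.meas
  set g2 : ℝ → ℂ := fun t => if ‖g1 t‖ ≤ K' * Real.exp (p t) then g1 t / (K' : ℂ) else 0 with hg2
  have hg2m : Measurable g2 :=
    Measurable.ite (measurableSet_le hg1m.norm (hpm.const_mul K')) (hg1m.div_const _)
      measurable_const
  have hg2e : ∀ᵐ t ∂(volume.restrict (Set.Ioi (0:ℝ))), g2 t = g t / (K' : ℂ) := by
    filter_upwards [hg1e, hK, ae_restrict_mem measurableSet_Ioi] with t ht1 ht2 ht3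
    have h1 : ‖g1 t‖ ≤ K' * Real.exp (p t) := by
      rw [← ht1]
      exact ht2.trans (mul_le_mul_of_nonneg_right (le_max_left _ _) (Real.exp_pos _).le)
    simp only [hg2, h1, if_true, ht1]
  have hBD : BD p g2 1 := by
    refine ⟨hg2m, ?_⟩
    intro t ht
    rw [one_mul]
    simp only [hg2]
    split_ifs with h
    · rw [norm_div, Complex.norm_real, Real.norm_of_nonneg (by linarith : (0:ℝ) ≤ K'),
        div_le_iff₀ (by linarith)]
      calc ‖g1 t‖ ≤ K' * Real.exp (p t) := h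
        _ = _ := mul_comm _ _
    · rw [norm_zero]; exact (Real.exp_pos _).le
  have hRel : Rel f2 g2 := by
    intro τ hτ
    have h1 : ∀ᵐ t ∂(volume.restrict (Set.Ioi (0:ℝ))), g2 (t + τ) = g (t + τ) / (K' : ℂ) := by
      rw [ae_restrict_iff' measurableSet_Ioi] at hg2e ⊢
      have h2 := (quasiMeasurePreserving_add_right volume τ).ae hg2e
      filter_upwards [h2] with t ht ht0
      exact ht (by simp only [Set.mem_Ioi] at ht0 ⊢; linarith)
    have h3 : ∫ t in Set.Ioi (0:ℝ), f2 t * g2 (t + τ) =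
        ∫ t in Set.Ioi (0:ℝ), (f t * g (t + τ)) / (((N + 1 : ℝ) : ℂ) * (K' : ℂ)) := by
      refine integral_congr_ae ?_
      filter_upwards [hf2e, h1] with t ht1 ht2
      rw [ht1, ht2, div_mul_div_comm]
    rw [h3, integral_div, hrel τ hτ, zero_div]
  have hfin := hMN p f2 g2 hPD hFD hBD hRel hdiv hne2 hlim2
  filter_upwards [hfin, hg2e] with t h1 h2
  rw [h1] at h2
  have h3 : (K' : ℂ) ≠ 0 := by exact_mod_cast (by linarith : K' ≠ 0)
  have := h2.symm
  rw [div_eq_zero_iff] at this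
  exact this.resolve_right h3

end RtG

end
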